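import Pool.Agent.N336.Kn.Stable

/-! Clique minors of disjointness graphs of families of stable sets. -/

set_option autoImplicit false

namespace Pool.Agent.N336.Kn

open Finset

/-- `K_m` is a minor of `G`. -/
def HasCliqueMinor {V : Type} (G : SimpleGraph V) (m : ℕ) : Prop :=
  ∃ B : Fin m → Set V, (∀ i, (G.induce (B i)).Connected) ∧
    (∀ i j, i ≠ j → Disjoint (B i) (B j)) ∧
    ∀ i j, i ≠ j → ∃ u ∈ B i, ∃ v ∈ B j, G.Adj u v

/-- The disjointness graph of a family `F` of finite sets. -/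
def kneser (F : Set (Finset ℕ)) : SimpleGraph F where
  Adj A B := A ≠ B ∧ Disjoint A.1 B.1
  symm := ⟨fun _ _ h => ⟨h.1.symm, h.2.symm⟩⟩
  loopless := ⟨fun _ h => h.1 rfl⟩

theorem conn_of_rel (F S : Set (Finset ℕ)) (hSF : S ⊆ F) (c : Finset ℕ) (hc : c ∈ S)
    (h : ∀ A ∈ S, Relation.ReflTransGen (Rel S) A c) :
    ((kneser F).induce {v : F | v.1 ∈ S}).Connected := by
  have key : ∀ A, Relation.ReflTransGen (Rel S) A c → ∀ hA : A ∈ S,
      ((kneser F).induce {v : F | v.1 ∈ S}).Reachable ⟨⟨A, hSF hA⟩, hA⟩ ⟨⟨c, hSF hc⟩, hc⟩ := by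
    intro A hAc
    induction hAc using Relation.ReflTransGen.head_induction_on with
    | refl => intro hA; exact SimpleGraph.Reachable.refl _
    | head h1 _ ih =>
      intro hA
      obtain ⟨-, hB, hadj⟩ := h1
      refine SimpleGraph.Reachable.trans (SimpleGraph.Adj.reachable ?_) (ih hB)
      refine ⟨fun heq => hadj.1 ?_, hadj.2⟩
      exact congrArg Subtype.val heq
  have : Nonempty {v : F | v.1 ∈ S} := ⟨⟨⟨c, hSF hc⟩, hc⟩⟩
  refine ⟨fun u v => ?_⟩
  exact (key _ (h _ u.2) u.2).trans (key _ (h _ v.2) v.2).symm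

/-- the classes of residues -/
def base (s j i : ℕ) : ℕ := j + 1 + s * i

theorem base_P {k s j : ℕ} (hk : 1 ≤ k) (hj : j < s) : P (s * k) k s (base s j) := by
  have h4 : s * k = s * (k - 1) + s := by
    conv_lhs => rw [show k = (k - 1) + 1 by omega]
    ring
  refine ⟨fun i _ => ?_, ?_, ?_, ?_⟩
  · simp only [base]
    rw [Nat.mul_succ]
    omega
  · simp only [base]; omega
  · simp only [base]; omega
  · simp only [base]; omega

/-- the branch sets -/
def br (k s q : ℕ) : Fin s ⊕ Fin q → Set (Finset ℕ)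
  | Sum.inl j => {img k (base s j)}
  | Sum.inr i => New (s * k + 1 + i) k s

theorem br_stab {k s q : ℕ} (hk : 1 ≤ k) (x : Fin s ⊕ Fin q) (A : Finset ℕ)
    (hA : A ∈ br k s q x) : Stab (s * k + q) k s A := by
  rcases x with j | i
  · have : A = img k (base s j) := hA
    rw [this]
    exact (stab_img hk (by have := j.2; omega) (base_P hk j.2)).mono (by omega)
  · exact hA.1.mono (by have := i.2; omega)

theorem br_conn {k s q : ℕ} (hk : 1 ≤ k) (hs : 2 ≤ s) (x : Fin s ⊕ Fin q) :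
    ∃ c ∈ br k s q x, ∀ A ∈ br k s q x, Relation.ReflTransGen (Rel (br k s q x)) A c := by
  rcases x with j | i
  · refine ⟨img k (base s j), rfl, fun A hA => ?_⟩
    have : A = img k (base s j) := hA
    rw [this]
  · have hm : s * k < s * k + 1 + i := by omega
    refine ⟨img k (can (s * k + 1 + i) k s), ?_, fun A hA => conn_new hk hs hm A hA⟩
    refine new_img hk hs hm (can_P hk hs hm) (Or.inl ?_)
    simp only [can]
    rw [if_neg (by omega)]

/-- two branch sets are disjoint and adjacent -/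
theorem br_pair {k s q : ℕ} (hk : 1 ≤ k) (hs : 2 ≤ s) (x y : Fin s ⊕ Fin q) (hxy : x ≠ y) :
    Disjoint (br k s q x) (br k s q y) ∧
      ∃ A ∈ br k s q x, ∃ B ∈ br k s q y, dj.Adj A B := by
  -- the case of a new set against old ones
  have key : ∀ (x : Fin s ⊕ Fin q) (i : Fin q),
      (∀ A ∈ br k s q x, Stab (s * k + 1 + i - 1) k s A) →
      Disjoint (br k s q x) (br k s q (Sum.inr i)) ∧
        ∃ A ∈ br k s q x, ∃ B ∈ br k s q (Sum.inr i), dj.Adj A B := by
    intro x i hx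
    constructor
    · rw [Set.disjoint_left]
      intro A hA hA'
      exact hA'.2 (hx A hA)
    · obtain ⟨c, hc, -⟩ := br_conn (q := q) hk hs x
      obtain ⟨B, hB, hadj⟩ := dominate hk hs (show s * k < s * k + 1 + i by omega) c (hx c hc)
      exact ⟨c, hc, B, hB, hadj⟩
  have hbase : ∀ (j : Fin s) (i : Fin q), ∀ A ∈ br k s q (Sum.inl j),
      Stab (s * k + 1 + i - 1) k s A := by
    intro j i A hA
    have : A = img k (base s j) := hA
    rw [this]
    exact (stab_img hk (by omega) (base_P hk j.2)).mono (by omega)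
  have hnew : ∀ (i i' : Fin q), i < i' → ∀ A ∈ br k s q (Sum.inr i),
      Stab (s * k + 1 + i' - 1) k s A := by
    intro i i' hii A hA
    have : i.1 < i'.1 := hii
    exact hA.1.mono (by omega)
  rcases x with j | i <;> rcases y with j' | i'
  · have hjj : j ≠ j' := fun h => hxy (by rw [h])
    have hadj : dj.Adj (img k (base s j)) (img k (base s j')) := by
      refine adj_img hk (fun a _ b _ => ?_)
      simp only [base]
      intro h
      have h1 : (j.1 + s * a) % s = (j'.1 + s * b) % s := by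
        congr 1
        omega
      rw [Nat.add_mul_mod_self_left, Nat.add_mul_mod_self_left, Nat.mod_eq_of_lt j.2,
        Nat.mod_eq_of_lt j'.2] at h1
      exact hjj (Fin.ext h1)
    refine ⟨?_, _, rfl, _, rfl, hadj⟩
    rw [Set.disjoint_left]
    intro A hA hA'
    have h1 : A = img k (base s j) := hA
    have h2 : A = img k (base s j') := hA'
    exact hadj.1 (h1.symm.trans h2)
  · exact key _ i' (hbase j i')
  · obtain ⟨h1, A, hA, B, hB, h2⟩ := key _ i (hbase j' i)
    exact ⟨h1.symm, B, hB, A, hA, h2.symm⟩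
  · have hii : i ≠ i' := fun h => hxy (by rw [h])
    rcases lt_or_gt_of_ne hii with h | h
    · exact key _ i' (hnew i i' h)
    · obtain ⟨h1, A, hA, B, hB, h2⟩ := key _ i (hnew i' i h)
      exact ⟨h1.symm, B, hB, A, hA, h2.symm⟩

theorem minor_exists {n k s : ℕ} (hk : 1 ≤ k) (hs : 2 ≤ s) (hn : s * k ≤ n)
    (F : Set (Finset ℕ)) (hF : ∀ A, Stab n k s A → A ∈ F) :
    HasCliqueMinor (kneser F) (n - s * (k - 1)) := by
  have h4 : s * k = s * (k - 1) + s := by
    conv_lhs => rw [show k = (k - 1) + 1 by omega]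
    ring
  obtain ⟨q, rfl⟩ := Nat.exists_eq_add_of_le hn
  have hN : s * k + q - s * (k - 1) = s + q := by omega
  rw [hN]
  have hsub : ∀ x, br k s q x ⊆ F := fun x A hA => hF A (br_stab hk x A hA)
  refine ⟨fun i => {v : F | v.1 ∈ br k s q (finSumFinEquiv.symm i)}, fun i => ?_, fun i j hij => ?_,
    fun i j hij => ?_⟩
  · obtain ⟨c, hc, h⟩ := br_conn (q := q) hk hs (finSumFinEquiv.symm i)
    exact conn_of_rel F _ (hsub _) c hc h
  · have h := (br_pair hk hs _ _ (fun h => hij (finSumFinEquiv.symm.injective h))).1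
    rw [Set.disjoint_left] at h ⊢
    intro v hv hv'
    exact h hv hv'
  · obtain ⟨-, A, hA, B, hB, h⟩ :=
      br_pair hk hs _ _ (fun h => hij (finSumFinEquiv.symm.injective h))
    refine ⟨⟨A, hsub _ hA⟩, hA, ⟨B, hsub _ hB⟩, hB, fun heq => h.1 ?_, h.2⟩
    exact congrArg Subtype.val heq

theorem HasCliqueMinor.mono {V : Type} {G : SimpleGraph V} {m m' : ℕ} (h : HasCliqueMinor G m)
    (hm : m' ≤ m) : HasCliqueMinor G m' := by
  obtain ⟨B, h1, h2, h3⟩ := h
  refine ⟨fun i => B (Fin.castLE hm i), fun i => h1 _, fun i j hij => h2 _ _ ?_,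
    fun i j hij => h3 _ _ ?_⟩
  · exact fun h => hij (Fin.castLE_injective hm h)
  · exact fun h => hij (Fin.castLE_injective hm h)

theorem color_exists (F : Set (Finset ℕ)) (N : ℕ) (hN : 1 ≤ N)
    (h1 : ∀ A ∈ F, A.Nonempty ∧ ∀ x ∈ A, 1 ≤ x)
    (h3 : ∀ A ∈ F, ∀ B ∈ F, (∀ x ∈ A, N ≤ x) → (∀ x ∈ B, N ≤ x) → ¬ Disjoint A B) :
    (kneser F).Colorable N := by
  let f : F → ℕ := fun A => min (A.1.min' (h1 _ A.2).1) N
  have hf1 : ∀ A, 1 ≤ f A := fun A => le_min ((h1 _ A.2).2 _ (min'_mem _ _)) hN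
  have hf2 : ∀ A, f A ≤ N := fun A => min_le_right _ _
  refine ⟨SimpleGraph.Coloring.mk (fun A => (⟨f A - 1, by
    have := hf1 A; have := hf2 A; omega⟩ : Fin N)) ?_⟩
  intro A B hAB heq
  have heq' : f A - 1 = f B - 1 := congrArg Fin.val heq
  have h4 := hf1 A
  have h5 := hf1 B
  have h6 : f A = f B := by omega
  have hmA := min'_mem A.1 (h1 _ A.2).1
  have hmB := min'_mem B.1 (h1 _ B.2).1
  have h7 : min (A.1.min' (h1 _ A.2).1) N = min (B.1.min' (h1 _ B.2).1) N := h6
  rcases Nat.lt_or_ge (A.1.min' (h1 _ A.2).1) N with h8 | h8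
  · have h9 : A.1.min' (h1 _ A.2).1 = B.1.min' (h1 _ B.2).1 := by omega
    exact (Finset.disjoint_left.1 hAB.2) hmA (h9 ▸ hmB)
  · have h9 : N ≤ B.1.min' (h1 _ B.2).1 := by omega
    exact h3 _ A.2 _ B.2 (fun x hx => h8.trans (min'_le _ _ hx))
      (fun x hx => h9.trans (min'_le _ _ hx)) hAB.2

theorem color_stable {n k s : ℕ} (hk : 1 ≤ k) (hs : 2 ≤ s) (hn : s * k ≤ n) :
    (kneser {A | Stab n k s A}).Colorable (n - s * (k - 1)) := by
  have h4 : s * k = s * (k - 1) + s := by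
    conv_lhs => rw [show k = (k - 1) + 1 by omega]
    ring
  have hkey : ∀ A, Stab n k s A → (∀ x ∈ A, n - s * (k - 1) ≤ x) → n - s * (k - 1) ∈ A := by
    intro A hA hx
    obtain ⟨a, ha, rfl⟩ := exists_P hk (by omega) hA
    have h0 : a 0 ∈ img k a := mem_img.2 ⟨0, by omega, rfl⟩
    have h5 := hx _ h0
    have h6 := ha.ge (show k - 1 < k by omega)
    have h7 := ha.le
    have : n - s * (k - 1) = a 0 := by omega
    rw [this]; exact h0
  refine color_exists _ _ (by omega) (fun A hA => ⟨?_, ?_⟩) (fun A hA B hB hxA hxB hd => ?_)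
  · rw [← Finset.card_pos, hA.2.1]; omega
  · intro x hx
    exact (mem_Icc.1 (hA.1 hx)).1
  · exact (Finset.disjoint_left.1 hd) (hkey A hA hxA) (hkey B hB hxB)

theorem color_between {n k : ℕ} (hk : 1 ≤ k) (hn : 2 * k ≤ n) (F : Set (Finset ℕ))
    (hF : ∀ A ∈ F, A ⊆ Icc 1 n ∧ A.card = k) :
    (kneser F).Colorable (n - 2 * (k - 1)) := by
  refine color_exists _ _ (by omega) (fun A hA => ⟨?_, ?_⟩) (fun A hA B hB hxA hxB hd => ?_)
  · rw [← Finset.card_pos, (hF A hA).2]; omega
  · intro x hx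
    exact (mem_Icc.1 ((hF A hA).1 hx)).1
  · have h1 : A ∪ B ⊆ Icc (n - 2 * (k - 1)) n := by
      intro x hx
      rw [mem_Icc]
      rcases mem_union.1 hx with h | h
      · exact ⟨hxA x h, (mem_Icc.1 ((hF A hA).1 h)).2⟩
      · exact ⟨hxB x h, (mem_Icc.1 ((hF B hB).1 h)).2⟩
    have h2 := card_le_card h1
    rw [card_union_of_disjoint hd, (hF A hA).2, (hF B hB).2, Nat.card_Icc] at h2
    omega

theorem hadwiger_of {V : Type} {G : SimpleGraph V} {N : ℕ} (hc : G.Colorable N)
    (hm : HasCliqueMinor G N) (t : ℕ) (ht : ¬ G.Colorable t) : HasCliqueMinor G (t + 1) := by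
  refine hm.mono ?_
  by_contra hcon
  exact ht (hc.mono (by omega))

end Pool.Agent.N336.Kn
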