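import Pool.Agent.N336.Kn.Minor

/-! Odd clique minors of disjointness graphs of families of stable sets. -/

set_option autoImplicit false

namespace Pool.Agent.N336.Kn

open Finset

/-- the relation of adjacency inside a set, exactly one of the two sets containing `m` -/
def RelO (m : ℕ) (S : Set (Finset ℕ)) (A B : Finset ℕ) : Prop :=
  A ∈ S ∧ B ∈ S ∧ dj.Adj A B ∧ (m ∈ A ↔ m ∉ B)

/-- every new set that contains `m` is connected with the canonical one -/
theorem conn_canO {m k s : ℕ} (hk : 1 ≤ k) (hs : 2 ≤ s) (hm : s * k < m) (N : ℕ) :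
    ∀ a : ℕ → ℕ, ∑ i ∈ range k, a i ≤ N → P m k s a → a (k - 1) = m →
      Relation.ReflTransGen (RelO m (New m k s)) (img k a) (img k (can m k s)) := by
  induction N with
  | zero =>
    intro a hN ha hma
    exfalso
    have h1 : a 0 ≤ ∑ i ∈ range k, a i :=
      single_le_sum (f := a) (fun _ _ => Nat.zero_le _) (mem_range.2 (by omega))
    have := ha.pos
    omega
  | succ N ih =>
    intro a hN ha hma
    by_cases hcan : ∀ i, i < k → a i = can m k s i
    · rw [img_congr hcan]
    push Not at hcan
    obtain ⟨p, ⟨hpk, hp⟩, hmin⟩ : ∃ p, (p < k ∧ a p ≠ can m k s p) ∧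
        ∀ q < p, ¬ (q < k ∧ a q ≠ can m k s q) := by
      classical
      exact ⟨Nat.find hcan, Nat.find_spec hcan, fun q hq => Nat.find_min hcan hq⟩
    have hp1 : p + 1 < k := by
      by_contra hcon
      have : p = k - 1 := by omega
      subst this
      apply hp
      simp only [can]
      rw [if_neg (by omega)]
      exact hma
    have hk2 : 2 ≤ k := by omega
    have hlow := low ha hma hpk
    have hcp : can m k s p = s * (p + 1) := by simp [can, hp1]
    rw [hcp] at hp
    have hgt : s * (p + 1) + 1 ≤ a p := by omega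
    have hsp : s ≤ s * (p + 1) := Nat.le_mul_of_pos_right _ (by omega)
    -- the lower set
    let b : ℕ → ℕ := Function.update a p (a p - 1)
    have hbp : b p = a p - 1 := by simp [b]
    have hbne : ∀ i, i ≠ p → b i = a i := fun i hi => by simp [b, hi]
    have hb : P m k s b := by
      refine ⟨fun i hi => ?_, ?_, ?_, ?_⟩
      · have h1 := ha.step i hi
        rcases eq_or_ne i p with rfl | hip
        · rw [hbp, hbne _ (by omega)]
          omega
        · rw [hbne i hip]
          rcases eq_or_ne (i + 1) p with h2 | h2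
          · rw [h2, hbp]
            have h3 := hmin i (by omega)
            push Not at h3
            have h4 := h3 (by omega)
            simp only [can] at h4
            rw [if_pos hi] at h4
            rw [h4]
            have h5 : s * (p + 1) = s * (i + 1) + s := by rw [← h2]; ring
            omega
          · rw [hbne _ h2]
            exact h1
      · rcases eq_or_ne 0 p with h2 | h2
        · rw [← h2] at hbp
          rw [hbp, h2]
          omega
        · rw [hbne 0 h2]; exact ha.pos
      · rw [hbne _ (by omega)]; exact ha.le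
      · rw [hbne (k - 1) (by omega), hma]
        rcases eq_or_ne 0 p with h2 | h2
        · rw [← h2] at hbp
          rw [hbp, h2]
          omega
        · rw [hbne 0 h2]
          have := ha.cyc
          omega
    have hmb : b (k - 1) = m := by rw [hbne _ (by omega)]; exact hma
    have hsum : ∑ i ∈ range k, b i ≤ N := by
      have h1 : ∑ i ∈ range k, b i < ∑ i ∈ range k, a i := by
        refine sum_lt_sum (fun i _ => ?_) ⟨p, mem_range.2 hpk, ?_⟩
        · rcases eq_or_ne i p with rfl | hip
          · rw [hbp]; omega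
          · rw [hbne i hip]
        · rw [hbp]; omega
      omega
    have hih := ih b hsum hb hmb
    have hM := mid_P hk2 hs hm ha hma
    have hMn : img k (mid m k s a) ∈ New m k s :=
      new_img hk hs hm hM (Or.inr (mid_cyc hk2 hm))
    have hAn : img k a ∈ New m k s := new_img hk hs hm ha (Or.inl hma)
    have hBn : img k b ∈ New m k s := new_img hk hs hm hb (Or.inl hmb)
    have e1 : dj.Adj (img k (mid m k s a)) (img k a) :=
      adj_img hk (mid_disj hk2 hs hm ha hma ha hma (fun _ _ => le_rfl) (fun _ _ => by omega)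
        (fun _ _ _ _ _ => rfl))
    have e2 : dj.Adj (img k (mid m k s a)) (img k b) := by
      refine adj_img hk (mid_disj hk2 hs hm ha hma hb hmb (fun i _ => ?_) (fun i _ => ?_)
        (fun i j hij _ hj => ?_))
      · rcases eq_or_ne i p with rfl | hip
        · rw [hbp]; omega
        · rw [hbne i hip]
      · rcases eq_or_ne i p with rfl | hip
        · rw [hbp]; omega
        · rw [hbne i hip]; omega
      · have : j = p := by
          by_contra hcon
          exact hj (hbne j hcon)
        exact hbne i (by omega)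
    have hmA : m ∈ img k a := mem_img.2 ⟨k - 1, by omega, hma⟩
    have hmB : m ∈ img k b := mem_img.2 ⟨k - 1, by omega, hmb⟩
    have hmM : m ∉ img k (mid m k s a) := by
      intro hcon
      obtain ⟨i, hi, hmi⟩ := mem_img.1 hcon
      have h1 := hM.mono (show i ≤ k - 1 by omega) (by omega)
      have h2 : mid m k s a (k - 1) = m + 1 - s := by
        simp only [mid]
        rw [if_neg (show ¬ k - 1 = 0 by omega), if_neg (by omega)]
      omega
    refine Relation.ReflTransGen.head ⟨hAn, hMn, e1.symm, iff_of_true hmA hmM⟩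
      (Relation.ReflTransGen.head ⟨hMn, hBn, e2, iff_of_false hmM (not_not.2 hmB)⟩ hih)

/-- every new set is connected with the canonical one -/
theorem conn_newO {m k s : ℕ} (hk : 1 ≤ k) (hs : 2 ≤ s) (hm : s * k < m) (A : Finset ℕ)
    (hA : A ∈ New m k s) :
    Relation.ReflTransGen (RelO m (New m k s)) A (img k (can m k s)) := by
  obtain ⟨b, hb, hb', rfl⟩ := exists_of_new hk hs hm hA
  by_cases hbm : b (k - 1) = m
  · exact conn_canO hk hs hm _ b le_rfl hb hbm
  · have hb1 : b (k - 1) + s = m + b 0 := hb'.resolve_left hbm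
    have hle := hb.le
    have hpos := hb.pos
    have hlt : b 0 < s := by omega
    let a : ℕ → ℕ := fun i => b i + (s - b 0)
    have ha : P m k s a := by
      refine ⟨fun i hi => ?_, ?_, ?_, ?_⟩
      · have := hb.step i hi
        simp only [a]; omega
      · simp only [a]; omega
      · simp only [a]; omega
      · simp only [a]; omega
    have hma : a (k - 1) = m := by simp only [a]; omega
    have hAn : img k a ∈ New m k s := new_img hk hs hm ha (Or.inl hma)
    have e1 : dj.Adj (img k b) (img k a) := by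
      refine adj_img hk (fun i hi j hj => ?_)
      simp only [a]
      rcases Nat.lt_or_ge j i with h1 | h1
      · have := hb.lt h1 hi
        omega
      · have := hb.mono h1 hj
        omega
    have hmA : m ∈ img k a := mem_img.2 ⟨k - 1, by omega, hma⟩
    have hmB : m ∉ img k b := by
      intro hcon
      obtain ⟨i, hi, hmi⟩ := mem_img.1 hcon
      have h1 := hb.mono (show i ≤ k - 1 by omega) (by omega)
      omega
    exact Relation.ReflTransGen.head ⟨hA, hAn, e1, iff_of_false hmB (not_not.2 hmA)⟩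
      (conn_canO hk hs hm _ a le_rfl ha hma)

/-- every old set is adjacent to a new one -/
theorem dominateO {m k s : ℕ} (hk : 1 ≤ k) (hs : 2 ≤ s) (hm : s * k < m) (A : Finset ℕ)
    (hA : Stab (m - 1) k s A) : ∃ B ∈ New m k s, m ∈ B ∧ dj.Adj A B := by
  have hm1 : s ≤ s * k := Nat.le_mul_of_pos_right _ hk
  obtain ⟨a, ha, rfl⟩ := exists_P hk (by omega) hA
  let x : ℕ → ℕ := fun i => if i + 1 < k then max (a i + 1) (s * (i + 1)) else m
  have hx1 : ∀ i, i + 1 < k → x i = max (a i + 1) (s * (i + 1)) := fun i hi => by simp [x, hi]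
  have hx2 : x (k - 1) = m := by
    simp only [x]
    rw [if_neg (by omega)]
  have hle := ha.le
  have hx : P m k s x := by
    refine ⟨fun i hi => ?_, ?_, ?_, ?_⟩
    · rw [hx1 i hi]
      have h1 := ha.step i hi
      rcases Nat.lt_or_ge (i + 1 + 1) k with h2 | h2
      · rw [hx1 (i + 1) h2]
        have h3 : s * (i + 1 + 1) = s * (i + 1) + s := by ring
        rw [h3]
        omega
      · have h3 : i + 1 = k - 1 := by omega
        rw [h3, hx2]
        rw [h3] at h1
        have h4 : s * k = s * (k - 1) + s := by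
          conv_lhs => rw [show k = (k - 1) + 1 by omega]
          ring
        omega
    · rcases Nat.lt_or_ge 1 k with h2 | h2
      · rw [hx1 0 (by omega)]
        omega
      · have : k = 1 := by omega
        subst this
        simp only [Nat.sub_self] at hx2
        omega
    · omega
    · rw [hx2]
      rcases Nat.lt_or_ge 1 k with h2 | h2
      · rw [hx1 0 (by omega)]
        simp only [Nat.zero_add, Nat.mul_one]
        omega
      · have : k = 1 := by omega
        subst this
        simp only [Nat.sub_self] at hx2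
        omega
  refine ⟨img k x, new_img hk hs hm hx (Or.inl hx2), mem_img.2 ⟨k - 1, by omega, hx2⟩,
    adj_img hk (fun i hi j hj => ?_)⟩
  have hpos := ha.pos
  rcases Nat.lt_or_ge (j + 1) k with h1 | h1
  · rw [hx1 j h1]
    rcases Nat.lt_or_ge j i with h2 | h2
    · have h3 := ha.lt h2 hi
      have h4 : a 0 + s * i ≤ a i := ha.ge hi
      have h5 : s * (j + 1) ≤ s * i := Nat.mul_le_mul_left _ h2
      omega
    · have h3 := ha.mono h2 hj
      omega
  · have : j = k - 1 := by omega
    subst this
    rw [hx2]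
    have := ha.mono (show i ≤ k - 1 by omega) (by omega)
    omega

/-- the colour of a set -/
def Cc (k s : ℕ) (A : Finset ℕ) : Prop := Stab (s * k) k s A ∨ ∃ m ∈ A, Stab m k s A

theorem cc_new {m k s : ℕ} (hm : s * k < m) {A : Finset ℕ} (hA : A ∈ New m k s) :
    Cc k s A ↔ m ∈ A := by
  constructor
  · rintro (h | ⟨p, hp, h⟩)
    · exact absurd (h.mono (by omega)) hA.2
    · have h1 := (mem_Icc.1 (hA.1.1 hp)).2
      rcases h1.eq_or_lt with h2 | h2
      · rw [← h2]; exact hp
      · exact absurd (h.mono (by omega)) hA.2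
  · intro h
    exact Or.inr ⟨m, h, hA.1⟩

/-- the edges of a graph whose ends have different colours -/
def bi {V : Type} (G : SimpleGraph V) (c : V → Bool) : SimpleGraph V where
  Adj u v := G.Adj u v ∧ c u ≠ c v
  symm := ⟨fun _ _ h => ⟨h.1.symm, h.2.symm⟩⟩
  loopless := ⟨fun _ h => h.2 rfl⟩

/-- `G` has an odd `K_m` minor. -/
def HasOddCliqueMinor {V : Type} (G : SimpleGraph V) (m : ℕ) : Prop :=
  ∃ (B : Fin m → Set V) (c : V → Bool), (∀ i, ((bi G c).induce (B i)).Connected) ∧
    (∀ i j, i ≠ j → Disjoint (B i) (B j)) ∧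
    ∀ i j, i ≠ j → ∃ u ∈ B i, ∃ v ∈ B j, G.Adj u v ∧ c u = c v

/-- adjacency with different colours inside a set -/
def RelB (k s : ℕ) (S : Set (Finset ℕ)) (A B : Finset ℕ) : Prop :=
  A ∈ S ∧ B ∈ S ∧ dj.Adj A B ∧ (Cc k s A ↔ ¬ Cc k s B)

open Classical in
/-- the colouring of the vertices -/
noncomputable def colC (k s : ℕ) (F : Set (Finset ℕ)) (v : F) : Bool := decide (Cc k s v.1)

theorem conn_of_relB (k s : ℕ) (F S : Set (Finset ℕ)) (hSF : S ⊆ F) (c : Finset ℕ) (hc : c ∈ S)
    (h : ∀ A ∈ S, Relation.ReflTransGen (RelB k s S) A c) :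
    ((bi (kneser F) (colC k s F)).induce {v : F | v.1 ∈ S}).Connected := by
  have key : ∀ A, Relation.ReflTransGen (RelB k s S) A c → ∀ hA : A ∈ S,
      ((bi (kneser F) (colC k s F)).induce {v : F | v.1 ∈ S}).Reachable ⟨⟨A, hSF hA⟩, hA⟩
        ⟨⟨c, hSF hc⟩, hc⟩ := by
    intro A hAc
    induction hAc using Relation.ReflTransGen.head_induction_on with
    | refl => intro hA; exact SimpleGraph.Reachable.refl _
    | head h1 _ ih =>
      intro hA
      obtain ⟨-, hB, hadj, hcc⟩ := h1
      refine SimpleGraph.Reachable.trans (SimpleGraph.Adj.reachable ?_) (ih hB)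
      refine ⟨⟨fun heq => hadj.1 ?_, hadj.2⟩, fun heq => ?_⟩
      · exact congrArg Subtype.val heq
      · have heq' : Cc k s _ ↔ Cc k s _ := decide_eq_decide.1 heq
        tauto
  have : Nonempty {v : F | v.1 ∈ S} := ⟨⟨⟨c, hSF hc⟩, hc⟩⟩
  refine ⟨fun u v => ?_⟩
  exact (key _ (h _ u.2) u.2).trans (key _ (h _ v.2) v.2).symm

theorem br_connO {k s q : ℕ} (hk : 1 ≤ k) (hs : 2 ≤ s) (x : Fin s ⊕ Fin q) :
    ∃ c ∈ br k s q x, Cc k s c ∧
      ∀ A ∈ br k s q x, Relation.ReflTransGen (RelB k s (br k s q x)) A c := by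
  rcases x with j | i
  · refine ⟨img k (base s j), rfl, Or.inl (stab_img hk (by omega) (base_P hk j.2)),
      fun A hA => ?_⟩
    have : A = img k (base s j) := hA
    rw [this]
  · have hm : s * k < s * k + 1 + i := by omega
    have hcan : img k (can (s * k + 1 + i) k s) ∈ New (s * k + 1 + i) k s := by
      refine new_img hk hs hm (can_P hk hs hm) (Or.inl ?_)
      simp only [can]
      rw [if_neg (by omega)]
    have hmem : s * k + 1 + i ∈ img k (can (s * k + 1 + i) k s) := by
      refine mem_img.2 ⟨k - 1, by omega, ?_⟩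
      simp only [can]
      rw [if_neg (by omega)]
    refine ⟨img k (can (s * k + 1 + i) k s), hcan, (cc_new hm hcan).2 hmem, fun A hA => ?_⟩
    refine Relation.ReflTransGen.mono (fun C D hCD => ?_) _ _ (conn_newO hk hs hm A hA)
    obtain ⟨h1, h2, h3, h4⟩ := hCD
    refine ⟨h1, h2, h3, ?_⟩
    rw [cc_new hm h1, cc_new hm h2]
    exact h4

theorem br_pairO {k s q : ℕ} (hk : 1 ≤ k) (hs : 2 ≤ s) (x y : Fin s ⊕ Fin q) (hxy : x ≠ y) :
    ∃ A ∈ br k s q x, ∃ B ∈ br k s q y, dj.Adj A B ∧ Cc k s A ∧ Cc k s B := by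
  have key : ∀ (x : Fin s ⊕ Fin q) (i : Fin q),
      (∀ A ∈ br k s q x, Stab (s * k + 1 + i - 1) k s A) →
      ∃ A ∈ br k s q x, ∃ B ∈ br k s q (Sum.inr i), dj.Adj A B ∧ Cc k s A ∧ Cc k s B := by
    intro x i hx
    obtain ⟨c, hc, hcc, -⟩ := br_connO (q := q) hk hs x
    obtain ⟨B, hB, hmB, hadj⟩ :=
      dominateO hk hs (show s * k < s * k + 1 + i by omega) c (hx c hc)
    exact ⟨c, hc, B, hB, hadj, hcc, (cc_new (by omega) hB).2 hmB⟩
  have hbase : ∀ (j : Fin s) (i : Fin q), ∀ A ∈ br k s q (Sum.inl j),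
      Stab (s * k + 1 + i - 1) k s A := by
    intro j i A hA
    have : A = img k (base s j) := hA
    rw [this]
    exact (stab_img hk (by omega) (base_P hk j.2)).mono (by omega)
  have hnew : ∀ (i i' : Fin q), i < i' → ∀ A ∈ br k s q (Sum.inr i),
      Stab (s * k + 1 + i' - 1) k s A := by
    intro i i' hii A hA
    have : i.1 < i'.1 := hii
    exact hA.1.mono (by omega)
  rcases x with j | i <;> rcases y with j' | i'
  · have hjj : j ≠ j' := fun h => hxy (by rw [h])
    obtain ⟨-, A, hA, B, hB, hadj⟩ := br_pair (q := q) hk hs (Sum.inl j) (Sum.inl j') hxy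
    have h1 : A = img k (base s j) := hA
    have h2 : B = img k (base s j') := hB
    refine ⟨A, hA, B, hB, hadj, Or.inl ?_, Or.inl ?_⟩
    · rw [h1]; exact stab_img hk (by omega) (base_P hk j.2)
    · rw [h2]; exact stab_img hk (by omega) (base_P hk j'.2)
  · exact key _ i' (hbase j i')
  · obtain ⟨A, hA, B, hB, h2, h3, h4⟩ := key _ i (hbase j' i)
    exact ⟨B, hB, A, hA, h2.symm, h4, h3⟩
  · have hii : i ≠ i' := fun h => hxy (by rw [h])
    rcases lt_or_gt_of_ne hii with h | h
    · exact key _ i' (hnew i i' h)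
    · obtain ⟨A, hA, B, hB, h2, h3, h4⟩ := key _ i (hnew i' i h)
      exact ⟨B, hB, A, hA, h2.symm, h4, h3⟩

theorem odd_minor_exists {n k s : ℕ} (hk : 1 ≤ k) (hs : 2 ≤ s) (hn : s * k ≤ n)
    (F : Set (Finset ℕ)) (hF : ∀ A, Stab n k s A → A ∈ F) :
    HasOddCliqueMinor (kneser F) (n - s * (k - 1)) := by
  have h4 : s * k = s * (k - 1) + s := by
    conv_lhs => rw [show k = (k - 1) + 1 by omega]
    ring
  obtain ⟨q, rfl⟩ := Nat.exists_eq_add_of_le hn
  have hN : s * k + q - s * (k - 1) = s + q := by omega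
  rw [hN]
  have hsub : ∀ x, br k s q x ⊆ F := fun x A hA => hF A (br_stab hk x A hA)
  refine ⟨fun i => {v : F | v.1 ∈ br k s q (finSumFinEquiv.symm i)}, colC k s F, fun i => ?_,
    fun i j hij => ?_, fun i j hij => ?_⟩
  · obtain ⟨c, hc, -, h⟩ := br_connO (q := q) hk hs (finSumFinEquiv.symm i)
    exact conn_of_relB k s F _ (hsub _) c hc h
  · have h := (br_pair hk hs _ _ (fun h => hij (finSumFinEquiv.symm.injective h))).1
    rw [Set.disjoint_left] at h ⊢
    intro v hv hv'
    exact h hv hv'
  · obtain ⟨A, hA, B, hB, h, hcA, hcB⟩ :=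
      br_pairO hk hs _ _ (fun h => hij (finSumFinEquiv.symm.injective h))
    refine ⟨⟨A, hsub _ hA⟩, hA, ⟨B, hsub _ hB⟩, hB, ⟨fun heq => h.1 ?_, h.2⟩, ?_⟩
    · exact congrArg Subtype.val heq
    · simp only [colC]
      rw [decide_eq_decide]
      exact iff_of_true hcA hcB

theorem HasOddCliqueMinor.mono {V : Type} {G : SimpleGraph V} {m m' : ℕ}
    (h : HasOddCliqueMinor G m) (hm : m' ≤ m) : HasOddCliqueMinor G m' := by
  obtain ⟨B, c, h1, h2, h3⟩ := h
  refine ⟨fun i => B (Fin.castLE hm i), c, fun i => h1 _, fun i j hij => h2 _ _ ?_,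
    fun i j hij => h3 _ _ ?_⟩
  · exact fun h => hij (Fin.castLE_injective hm h)
  · exact fun h => hij (Fin.castLE_injective hm h)

theorem odd_hadwiger_of {V : Type} {G : SimpleGraph V} {N : ℕ} (hc : G.Colorable N)
    (hm : HasOddCliqueMinor G N) (t : ℕ) (ht : ¬ G.Colorable t) :
    HasOddCliqueMinor G (t + 1) := by
  refine hm.mono ?_
  by_contra hcon
  exact ht (hc.mono (by omega))

/-- an odd clique minor is a clique minor -/
theorem HasOddCliqueMinor.clique {V : Type} {G : SimpleGraph V} {m : ℕ}
    (h : HasOddCliqueMinor G m) : HasCliqueMinor G m := by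
  obtain ⟨B, c, h1, h2, h3⟩ := h
  refine ⟨B, fun i => (h1 i).mono ?_, h2, fun i j hij => ?_⟩
  · intro u v huv
    exact huv.1
  · obtain ⟨u, hu, v, hv, h, -⟩ := h3 i j hij
    exact ⟨u, hu, v, hv, h⟩

end Pool.Agent.N336.Kn
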