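import Mathlib

/-! Stable subsets of a cycle, represented by increasing functions. -/

set_option autoImplicit false

namespace Pool.Agent.N336.Kn

open Finset

/-- `A` is a `k`-subset of the cycle `1, …, n` in which the cyclic distance of any two elements is
at least `s`. -/
def Stab (n k s : ℕ) (A : Finset ℕ) : Prop :=
  A ⊆ Icc 1 n ∧ A.card = k ∧ ∀ x ∈ A, ∀ y ∈ A, x < y → x + s ≤ y ∧ y + s ≤ n + x

/-- The same for increasing functions. -/
structure P (n k s : ℕ) (a : ℕ → ℕ) : Prop where
  step : ∀ i, i + 1 < k → a i + s ≤ a (i + 1)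
  pos : 1 ≤ a 0
  le : a (k - 1) ≤ n
  cyc : a (k - 1) + s ≤ n + a 0

/-- the set of the first `k` values -/
def img (k : ℕ) (a : ℕ → ℕ) : Finset ℕ := (range k).image a

theorem mem_img {k : ℕ} {a : ℕ → ℕ} {x : ℕ} : x ∈ img k a ↔ ∃ i, i < k ∧ a i = x := by
  simp [img]

theorem P.lt {n k s : ℕ} {a : ℕ → ℕ} (h : P n k s a) {i j : ℕ} (hij : i < j) (hj : j < k) :
    a i + s ≤ a j := by
  induction j with
  | zero => omega
  | succ j ih =>
    have h1 := h.step j hj
    rcases Nat.lt_or_ge i j with h2 | h2
    · have := ih h2 (by omega)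
      omega
    · have : i = j := by omega
      subst this
      exact h1

theorem P.mono {n k s : ℕ} {a : ℕ → ℕ} (h : P n k s a) {i j : ℕ} (hij : i ≤ j) (hj : j < k) :
    a i ≤ a j := by
  rcases hij.eq_or_lt with rfl | h1
  · exact le_rfl
  · have := h.lt h1 hj
    omega

theorem P.ge {n k s : ℕ} {a : ℕ → ℕ} (h : P n k s a) {j : ℕ} (hj : j < k) :
    a 0 + s * j ≤ a j := by
  induction j with
  | zero => omega
  | succ j ih =>
    have h1 := h.step j hj
    have h2 := ih (by omega)
    rw [Nat.mul_succ]
    omega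

theorem P.congr {n k s : ℕ} {a b : ℕ → ℕ} (hk : 1 ≤ k) (h : P n k s a)
    (hab : ∀ i, i < k → a i = b i) : P n k s b := by
  refine ⟨fun i hi => ?_, ?_, ?_, ?_⟩
  · rw [← hab i (by omega), ← hab (i + 1) hi]; exact h.step i hi
  · rw [← hab 0 (by omega)]; exact h.pos
  · rw [← hab (k - 1) (by omega)]; exact h.le
  · rw [← hab (k - 1) (by omega), ← hab 0 (by omega)]; exact h.cyc

theorem stab_img {n k s : ℕ} {a : ℕ → ℕ} (hk : 1 ≤ k) (hs : 1 ≤ s) (h : P n k s a) :
    Stab n k s (img k a) := by
  refine ⟨?_, ?_, ?_⟩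
  · intro x hx
    obtain ⟨i, hi, rfl⟩ := mem_img.1 hx
    rw [mem_Icc]
    have h1 := h.mono (Nat.zero_le i) hi
    have h2 := h.mono (show i ≤ k - 1 by omega) (by omega)
    have h3 := h.pos
    have h4 := h.le
    omega
  · rw [img, card_image_of_injOn, card_range]
    intro i hi j hj hij
    have hi' : i < k := by simpa using hi
    have hj' : j < k := by simpa using hj
    rcases Nat.lt_trichotomy i j with h1 | h1 | h1
    · have := h.lt h1 hj'
      have hij' : a i = a j := hij
      omega
    · exact h1
    · have := h.lt h1 hi'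
      have hij' : a i = a j := hij
      omega
  · intro x hx y hy hxy
    obtain ⟨i, hi, rfl⟩ := mem_img.1 hx
    obtain ⟨j, hj, rfl⟩ := mem_img.1 hy
    have hij : i < j := by
      by_contra hcon
      have := h.mono (show j ≤ i by omega) hi
      omega
    refine ⟨h.lt hij hj, ?_⟩
    have h1 := h.mono (Nat.zero_le i) hi
    have h2 := h.mono (show j ≤ k - 1 by omega) (by omega)
    have h3 := h.cyc
    omega

theorem exists_P {n k s : ℕ} {A : Finset ℕ} (hk : 1 ≤ k) (hsn : s ≤ n) (h : Stab n k s A) :
    ∃ a, P n k s a ∧ img k a = A := by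
  obtain ⟨h1, h2, h3⟩ := h
  let e := A.orderEmbOfFin h2
  have he : ∀ i, e i ∈ A := fun i => A.orderEmbOfFin_mem h2 i
  let a : ℕ → ℕ := fun i => if h : i < k then e ⟨i, h⟩ else 0
  have ha : ∀ i (hi : i < k), a i = e ⟨i, hi⟩ := fun i hi => by simp [a, hi]
  refine ⟨a, ⟨fun i hi => ?_, ?_, ?_, ?_⟩, ?_⟩
  · rw [ha i (by omega), ha (i + 1) hi]
    refine (h3 _ (he _) _ (he _) ?_).1
    exact e.strictMono (by simp [Fin.lt_def])
  · rw [ha 0 (by omega)]
    exact (mem_Icc.1 (h1 (he _))).1
  · rw [ha (k - 1) (by omega)]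
    exact (mem_Icc.1 (h1 (he _))).2
  · rw [ha (k - 1) (by omega), ha 0 (by omega)]
    rcases Nat.lt_or_ge 1 k with h4 | h4
    · refine (h3 _ (he _) _ (he _) ?_).2
      exact e.strictMono (by simp only [Fin.lt_def]; omega)
    · have : k = 1 := by omega
      subst this
      simp only [Nat.sub_self]
      omega
  · ext x
    rw [mem_img]
    constructor
    · rintro ⟨i, hi, rfl⟩
      rw [ha i hi]; exact he _
    · intro hx
      have : x ∈ Set.range e := by
        rw [Finset.range_orderEmbOfFin]; exact hx
      obtain ⟨i, rfl⟩ := this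
      exact ⟨i.1, i.2, ha _ i.2⟩

theorem Stab.mono {m n k s : ℕ} {A : Finset ℕ} (h : Stab m k s A) (hmn : m ≤ n) :
    Stab n k s A := by
  refine ⟨h.1.trans (Icc_subset_Icc le_rfl hmn), h.2.1, fun x hx y hy hxy => ?_⟩
  have := h.2.2 x hx y hy hxy
  omega

/-- the graph of disjointness of all finite sets of natural numbers -/
def dj : SimpleGraph (Finset ℕ) where
  Adj A B := A ≠ B ∧ Disjoint A B
  symm := ⟨fun _ _ h => ⟨h.1.symm, h.2.symm⟩⟩
  loopless := ⟨fun _ h => h.1 rfl⟩

theorem adj_img {k : ℕ} {a b : ℕ → ℕ} (hk : 1 ≤ k) (h : ∀ i, i < k → ∀ j, j < k → a i ≠ b j) :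
    dj.Adj (img k a) (img k b) := by
  have hd : Disjoint (img k a) (img k b) := by
    rw [Finset.disjoint_left]
    intro x hx hx'
    obtain ⟨i, hi, rfl⟩ := mem_img.1 hx
    obtain ⟨j, hj, hij⟩ := mem_img.1 hx'
    exact h i hi j hj hij.symm
  refine ⟨fun heq => ?_, hd⟩
  rw [← heq, disjoint_self_iff_empty] at hd
  have : a 0 ∈ img k a := mem_img.2 ⟨0, by omega, rfl⟩
  rw [hd] at this
  simp at this

/-- The sets which are stable in the cycle of length `m` and not in the cycle of length `m - 1`. -/
def New (m k s : ℕ) : Set (Finset ℕ) := {A | Stab m k s A ∧ ¬ Stab (m - 1) k s A}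

theorem new_img {m k s : ℕ} {a : ℕ → ℕ} (hk : 1 ≤ k) (hs : 2 ≤ s) (hm : s * k < m)
    (h : P m k s a) (h' : a (k - 1) = m ∨ a (k - 1) + s = m + a 0) : img k a ∈ New m k s := by
  refine ⟨stab_img hk (by omega) h, fun hst => ?_⟩
  have hm1 : s ≤ s * k := Nat.le_mul_of_pos_right _ hk
  have hA : a (k - 1) ∈ img k a := mem_img.2 ⟨k - 1, by omega, rfl⟩
  have hA0 : a 0 ∈ img k a := mem_img.2 ⟨0, by omega, rfl⟩
  rcases h' with h' | h'
  · have := (mem_Icc.1 (hst.1 hA)).2
    omega
  · rcases Nat.lt_or_ge 1 k with h4 | h4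
    · have h5 := h.lt (show 0 < k - 1 by omega) (by omega)
      have := (hst.2.2 _ hA0 _ hA (by omega)).2
      omega
    · have : k = 1 := by omega
      subst this
      simp only [Nat.sub_self] at h'
      omega

theorem exists_of_new {m k s : ℕ} {A : Finset ℕ} (hk : 1 ≤ k) (hs : 2 ≤ s) (hm : s * k < m)
    (h : A ∈ New m k s) : ∃ a, P m k s a ∧ (a (k - 1) = m ∨ a (k - 1) + s = m + a 0) ∧
      img k a = A := by
  have hm1 : s ≤ s * k := Nat.le_mul_of_pos_right _ hk
  obtain ⟨a, h1, h2⟩ := exists_P hk (by omega) h.1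
  refine ⟨a, h1, ?_, h2⟩
  by_contra hcon
  push Not at hcon
  apply h.2
  rw [← h2]
  have h3 := h1.le
  have h4 := h1.cyc
  exact stab_img hk (by omega) ⟨h1.step, h1.pos, by omega, by omega⟩

/-- the relation of adjacency inside a set -/
def Rel (S : Set (Finset ℕ)) (A B : Finset ℕ) : Prop := A ∈ S ∧ B ∈ S ∧ dj.Adj A B

/-- the canonical new set -/
def can (m k s : ℕ) (i : ℕ) : ℕ := if i + 1 < k then s * (i + 1) else m

theorem can_P {m k s : ℕ} (hk : 1 ≤ k) (hs : 2 ≤ s) (hm : s * k < m) : P m k s (can m k s) := by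
  have hm1 : s ≤ s * k := Nat.le_mul_of_pos_right _ hk
  refine ⟨fun i hi => ?_, ?_, ?_, ?_⟩
  · simp only [can]
    rw [if_pos hi]
    split_ifs with h
    · rw [Nat.mul_succ s (i + 1)]
    · have : k = i + 2 := by omega
      subst this
      have : s * (i + 2) = s * (i + 1) + s := by ring
      omega
  · simp only [can]
    split_ifs
    · omega
    · omega
  · simp only [can]
    rw [if_neg (by omega)]
  · simp only [can]
    rw [if_neg (by omega)]
    split_ifs
    · omega
    · omega

/-- a lower bound for the members of a new set that contains `m` -/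
theorem low {m k s : ℕ} {a : ℕ → ℕ} (h : P m k s a) (hm : a (k - 1) = m) {i : ℕ} (hi : i < k) :
    s * (i + 1) ≤ a i := by
  have h1 := h.ge hi
  have h2 := h.cyc
  rw [Nat.mul_succ]
  omega

/-- the common neighbour -/
def mid (m k s : ℕ) (a : ℕ → ℕ) (i : ℕ) : ℕ :=
  if i = 0 then 1 else if i + 1 < k then a (i - 1) + 1 else m + 1 - s

theorem mid_P {m k s : ℕ} {a : ℕ → ℕ} (hk : 2 ≤ k) (hs : 2 ≤ s) (hm : s * k < m)
    (h : P m k s a) (ha : a (k - 1) = m) : P m k s (mid m k s a) := by
  have hm1 : s ≤ s * k := Nat.le_mul_of_pos_right _ (by omega)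
  have hm2 : s * 2 ≤ s * k := Nat.mul_le_mul_left _ hk
  have h0 := low h ha (show 0 < k by omega)
  refine ⟨fun i hi => ?_, ?_, ?_, ?_⟩
  · simp only [mid]
    rw [if_neg (show ¬ i + 1 = 0 by omega)]
    rcases Nat.eq_zero_or_pos i with rfl | hi0
    · rw [if_pos rfl]
      split_ifs with h2
      · simp only [Nat.zero_add, Nat.sub_self]
        omega
      · omega
    · rw [if_neg (show ¬ i = 0 by omega), if_pos hi]
      have h3 := h.step (i - 1) (by omega)
      rw [show i - 1 + 1 = i by omega] at h3
      split_ifs with h2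
      · rw [show i + 1 - 1 = i by omega]
        omega
      · have h4 := h.step i hi
        have : k - 1 = i + 1 := by omega
        rw [this] at ha
        omega
  · simp [mid]
  · simp only [mid]
    rw [if_neg (show ¬ k - 1 = 0 by omega), if_neg (by omega)]
    omega
  · simp only [mid]
    rw [if_neg (show ¬ k - 1 = 0 by omega), if_neg (by omega), if_true]
    omega

theorem mid_cyc {m k s : ℕ} {a : ℕ → ℕ} (hk : 2 ≤ k) (hm : s * k < m) :
    mid m k s a (k - 1) + s = m + mid m k s a 0 := by
  have hm1 : s ≤ s * k := Nat.le_mul_of_pos_right _ (by omega)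
  simp only [mid]
  rw [if_neg (show ¬ k - 1 = 0 by omega), if_neg (by omega), if_true]
  omega

/-- `mid a` is disjoint from every new set `b` that contains `m` and agrees with `a` except that one
member may be smaller by one -/
theorem mid_disj {m k s : ℕ} {a b : ℕ → ℕ} (hk : 2 ≤ k) (hs : 2 ≤ s) (hm : s * k < m)
    (ha : P m k s a) (hma : a (k - 1) = m) (hb : P m k s b) (hmb : b (k - 1) = m)
    (hab : ∀ i, i < k → b i ≤ a i) (hba : ∀ i, i < k → a i ≤ b i + 1)
    (hone : ∀ i j, i < j → j < k → b j ≠ a j → b i = a i) :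
    ∀ i, i < k → ∀ j, j < k → mid m k s a i ≠ b j := by
  intro i hi j hj
  have hm1 : s ≤ s * k := Nat.le_mul_of_pos_right _ (by omega)
  have h0 := low hb hmb (show 0 < k by omega)
  have hbj := hb.mono (Nat.zero_le j) hj
  simp only [mid]
  split_ifs with h1 h2
  · simp only [Nat.zero_add, Nat.mul_one] at h0
    omega
  · -- `a (i-1) + 1`
    have h3 := hba (i - 1) (by omega)
    have h4 := hab (i - 1) (by omega)
    rcases Nat.lt_or_ge j i with h5 | h5
    · have h6 := ha.mono (show j ≤ i - 1 by omega) (by omega)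
      have h7 := hab j hj
      omega
    · have h6 := hb.lt (show i - 1 < j by omega) hj
      by_cases h8 : b (i - 1) = a (i - 1)
      · omega
      · -- then `b (i-1) = a (i-1) - 1`, all later agree
        have h9 : b j = a j := by
          by_contra hcon
          exact h8 (hone (i - 1) j (by omega) hj hcon)
        have h10 := ha.lt (show i - 1 < j by omega) hj
        omega
  · rcases Nat.lt_or_ge j (k - 1) with h5 | h5
    · have h6 := hb.lt h5 (show k - 1 < k by omega)
      omega
    · have : j = k - 1 := by omega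
      subst this
      omega

theorem img_congr {k : ℕ} {a b : ℕ → ℕ} (h : ∀ i, i < k → a i = b i) : img k a = img k b := by
  ext x
  rw [mem_img, mem_img]
  constructor
  · rintro ⟨i, hi, rfl⟩
    exact ⟨i, hi, (h i hi).symm⟩
  · rintro ⟨i, hi, rfl⟩
    exact ⟨i, hi, h i hi⟩

/-- every new set that contains `m` is connected with the canonical one -/
theorem conn_can {m k s : ℕ} (hk : 1 ≤ k) (hs : 2 ≤ s) (hm : s * k < m) (N : ℕ) :
    ∀ a : ℕ → ℕ, ∑ i ∈ range k, a i ≤ N → P m k s a → a (k - 1) = m →
      Relation.ReflTransGen (Rel (New m k s)) (img k a) (img k (can m k s)) := by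
  induction N with
  | zero =>
    intro a hN ha hma
    exfalso
    have h1 : a 0 ≤ ∑ i ∈ range k, a i :=
      single_le_sum (f := a) (fun _ _ => Nat.zero_le _) (mem_range.2 (by omega))
    have := ha.pos
    omega
  | succ N ih =>
    intro a hN ha hma
    by_cases hcan : ∀ i, i < k → a i = can m k s i
    · rw [img_congr hcan]
    push Not at hcan
    obtain ⟨p, ⟨hpk, hp⟩, hmin⟩ : ∃ p, (p < k ∧ a p ≠ can m k s p) ∧
        ∀ q < p, ¬ (q < k ∧ a q ≠ can m k s q) := by
      classical
      exact ⟨Nat.find hcan, Nat.find_spec hcan, fun q hq => Nat.find_min hcan hq⟩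
    have hp1 : p + 1 < k := by
      by_contra hcon
      have : p = k - 1 := by omega
      subst this
      apply hp
      simp only [can]
      rw [if_neg (by omega)]
      exact hma
    have hk2 : 2 ≤ k := by omega
    have hlow := low ha hma hpk
    have hcp : can m k s p = s * (p + 1) := by simp [can, hp1]
    rw [hcp] at hp
    have hgt : s * (p + 1) + 1 ≤ a p := by omega
    have hsp : s ≤ s * (p + 1) := Nat.le_mul_of_pos_right _ (by omega)
    -- the lower set
    let b : ℕ → ℕ := Function.update a p (a p - 1)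
    have hbp : b p = a p - 1 := by simp [b]
    have hbne : ∀ i, i ≠ p → b i = a i := fun i hi => by simp [b, hi]
    have hb : P m k s b := by
      refine ⟨fun i hi => ?_, ?_, ?_, ?_⟩
      · have h1 := ha.step i hi
        rcases eq_or_ne i p with rfl | hip
        · rw [hbp, hbne _ (by omega)]
          omega
        · rw [hbne i hip]
          rcases eq_or_ne (i + 1) p with h2 | h2
          · rw [h2, hbp]
            have h3 := hmin i (by omega)
            push Not at h3
            have h4 := h3 (by omega)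
            simp only [can] at h4
            rw [if_pos hi] at h4
            rw [h4]
            have h5 : s * (p + 1) = s * (i + 1) + s := by rw [← h2]; ring
            omega
          · rw [hbne _ h2]
            exact h1
      · rcases eq_or_ne 0 p with h2 | h2
        · rw [← h2] at hbp
          rw [hbp, h2]
          omega
        · rw [hbne 0 h2]; exact ha.pos
      · rw [hbne _ (by omega)]; exact ha.le
      · rw [hbne (k - 1) (by omega), hma]
        rcases eq_or_ne 0 p with h2 | h2
        · rw [← h2] at hbp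
          rw [hbp, h2]
          omega
        · rw [hbne 0 h2]
          have := ha.cyc
          omega
    have hmb : b (k - 1) = m := by rw [hbne _ (by omega)]; exact hma
    have hsum : ∑ i ∈ range k, b i ≤ N := by
      have h1 : ∑ i ∈ range k, b i < ∑ i ∈ range k, a i := by
        refine sum_lt_sum (fun i _ => ?_) ⟨p, mem_range.2 hpk, ?_⟩
        · rcases eq_or_ne i p with rfl | hip
          · rw [hbp]; omega
          · rw [hbne i hip]
        · rw [hbp]; omega
      omega
    have hih := ih b hsum hb hmb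
    have hM := mid_P hk2 hs hm ha hma
    have hMn : img k (mid m k s a) ∈ New m k s :=
      new_img hk hs hm hM (Or.inr (mid_cyc hk2 hm))
    have hAn : img k a ∈ New m k s := new_img hk hs hm ha (Or.inl hma)
    have hBn : img k b ∈ New m k s := new_img hk hs hm hb (Or.inl hmb)
    have e1 : dj.Adj (img k (mid m k s a)) (img k a) :=
      adj_img hk (mid_disj hk2 hs hm ha hma ha hma (fun _ _ => le_rfl) (fun _ _ => by omega)
        (fun _ _ _ _ _ => rfl))
    have e2 : dj.Adj (img k (mid m k s a)) (img k b) := by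
      refine adj_img hk (mid_disj hk2 hs hm ha hma hb hmb (fun i _ => ?_) (fun i _ => ?_)
        (fun i j hij _ hj => ?_))
      · rcases eq_or_ne i p with rfl | hip
        · rw [hbp]; omega
        · rw [hbne i hip]
      · rcases eq_or_ne i p with rfl | hip
        · rw [hbp]; omega
        · rw [hbne i hip]; omega
      · have : j = p := by
          by_contra hcon
          exact hj (hbne j hcon)
        exact hbne i (by omega)
    refine Relation.ReflTransGen.head ⟨hAn, hMn, e1.symm⟩
      (Relation.ReflTransGen.head ⟨hMn, hBn, e2⟩ hih)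

/-- every new set is connected with the canonical one -/
theorem conn_new {m k s : ℕ} (hk : 1 ≤ k) (hs : 2 ≤ s) (hm : s * k < m) (A : Finset ℕ)
    (hA : A ∈ New m k s) :
    Relation.ReflTransGen (Rel (New m k s)) A (img k (can m k s)) := by
  obtain ⟨b, hb, hb', rfl⟩ := exists_of_new hk hs hm hA
  by_cases hbm : b (k - 1) = m
  · exact conn_can hk hs hm _ b le_rfl hb hbm
  · have hb1 : b (k - 1) + s = m + b 0 := hb'.resolve_left hbm
    have hle := hb.le
    have hpos := hb.pos
    have hlt : b 0 < s := by omega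
    let a : ℕ → ℕ := fun i => b i + (s - b 0)
    have ha : P m k s a := by
      refine ⟨fun i hi => ?_, ?_, ?_, ?_⟩
      · have := hb.step i hi
        simp only [a]; omega
      · simp only [a]; omega
      · simp only [a]; omega
      · simp only [a]; omega
    have hma : a (k - 1) = m := by simp only [a]; omega
    have hAn : img k a ∈ New m k s := new_img hk hs hm ha (Or.inl hma)
    have e1 : dj.Adj (img k b) (img k a) := by
      refine adj_img hk (fun i hi j hj => ?_)
      simp only [a]
      rcases Nat.lt_or_ge j i with h1 | h1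
      · have := hb.lt h1 hi
        omega
      · have := hb.mono h1 hj
        omega
    exact Relation.ReflTransGen.head ⟨hA, hAn, e1⟩ (conn_can hk hs hm _ a le_rfl ha hma)

/-- every old set is adjacent to a new one -/
theorem dominate {m k s : ℕ} (hk : 1 ≤ k) (hs : 2 ≤ s) (hm : s * k < m) (A : Finset ℕ)
    (hA : Stab (m - 1) k s A) : ∃ B ∈ New m k s, dj.Adj A B := by
  have hm1 : s ≤ s * k := Nat.le_mul_of_pos_right _ hk
  obtain ⟨a, ha, rfl⟩ := exists_P hk (by omega) hA
  let x : ℕ → ℕ := fun i => if i + 1 < k then max (a i + 1) (s * (i + 1)) else m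
  have hx1 : ∀ i, i + 1 < k → x i = max (a i + 1) (s * (i + 1)) := fun i hi => by simp [x, hi]
  have hx2 : x (k - 1) = m := by
    simp only [x]
    rw [if_neg (by omega)]
  have hle := ha.le
  have hx : P m k s x := by
    refine ⟨fun i hi => ?_, ?_, ?_, ?_⟩
    · rw [hx1 i hi]
      have h1 := ha.step i hi
      rcases Nat.lt_or_ge (i + 1 + 1) k with h2 | h2
      · rw [hx1 (i + 1) h2]
        have h3 : s * (i + 1 + 1) = s * (i + 1) + s := by ring
        rw [h3]
        omega
      · have h3 : i + 1 = k - 1 := by omega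
        rw [h3, hx2]
        rw [h3] at h1
        have h4 : s * k = s * (k - 1) + s := by
          conv_lhs => rw [show k = (k - 1) + 1 by omega]
          ring
        omega
    · rcases Nat.lt_or_ge 1 k with h2 | h2
      · rw [hx1 0 (by omega)]
        omega
      · have : k = 1 := by omega
        subst this
        simp only [Nat.sub_self] at hx2
        omega
    · omega
    · rw [hx2]
      rcases Nat.lt_or_ge 1 k with h2 | h2
      · rw [hx1 0 (by omega)]
        simp only [Nat.zero_add, Nat.mul_one]
        omega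
      · have : k = 1 := by omega
        subst this
        simp only [Nat.sub_self] at hx2
        omega
  refine ⟨img k x, new_img hk hs hm hx (Or.inl hx2), adj_img hk (fun i hi j hj => ?_)⟩
  have hpos := ha.pos
  rcases Nat.lt_or_ge (j + 1) k with h1 | h1
  · rw [hx1 j h1]
    rcases Nat.lt_or_ge j i with h2 | h2
    · have h3 := ha.lt h2 hi
      have h4 : a 0 + s * i ≤ a i := ha.ge hi
      have h5 : s * (j + 1) ≤ s * i := Nat.mul_le_mul_left _ h2
      omega
    · have h3 := ha.mono h2 hj
      omega
  · have : j = k - 1 := by omega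
    subst this
    rw [hx2]
    have := ha.mono (show i ≤ k - 1 by omega) (by omega)
    omega

end Pool.Agent.N336.Kn
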